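import Pool.Agent.W559.Wr.StmR

/-! Project Wr: resolution of singularities from a smooth projective model over an affine
variety. -/

set_option autoImplicit false

open AlgebraicGeometry CategoryTheory

universe u

namespace Pool.Agent.W591.WRR

open Pool.Agent.W559.Wr

theorem resol : ResolRStm.{u} := by
  intro k A K _ _ _ _ _ _ g hg hfrac hS
  obtain ⟨l, z, hz, hsm, -⟩ := hS
  choose a b hb hab using fun i => hfrac (z i)
  classical
  set c : K := ∏ i, g (b i) with hc
  have hc0 : c ≠ 0 := Finset.prod_ne_zero_iff.2 fun i _ => hb i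
  set z' : Fin (l + 1) → A := fun i => a i * ∏ j ∈ Finset.univ.erase i, b j with hz'
  have hgz : ∀ i, g (z' i) = z i * c := by
    intro i
    simp only [hz', map_mul, map_prod]
    rw [hc, ← Finset.mul_prod_erase Finset.univ (fun j => g (b j)) (Finset.mem_univ i), hab i]
    have := hb i
    field_simp
  have hquot : ∀ i s, g (z' i) / g (z' s) = z i / z s := by
    intro i s
    rw [hgz, hgz, mul_div_mul_right _ _ hc0]
  have hz0 : ∀ s, z' s ≠ 0 := by
    intro s h
    have := hgz s
    rw [h, map_zero] at this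
    exact (mul_ne_zero (hz s) hc0) this.symm
  refine H920R2.hasResolution_of_charts' g hg z' Set.univ ?_ ?_
  · intro V hV
    obtain ⟨s, -, hs⟩ := Finset.exists_max_image (Finset.univ : Finset (Fin (l + 1)))
      (fun i => V.valuation (z i)) Finset.univ_nonempty
    refine ⟨s, Set.mem_univ _, hz0 s, fun i => ?_⟩
    rw [hquot, ← V.valuation_le_one_iff, map_div₀]
    have h0 : 0 < V.valuation (z s) := by
      rw [zero_lt_iff]
      exact (Valuation.ne_zero_iff _).2 (hz s)
    exact (div_le_one₀ h0).2 (hs i (Finset.mem_univ _))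
  · intro s _ _
    refine ⟨g.range ⊔ Algebra.adjoin k (Set.range fun j => z j / z s), hsm s, ?_, ?_, ?_⟩
    · intro x
      exact (le_sup_left : g.range ≤ g.range ⊔ _) ⟨x, rfl⟩
    · intro i
      rw [hquot]
      exact (le_sup_right : Algebra.adjoin k (Set.range fun j => z j / z s) ≤ g.range ⊔ _)
        (Algebra.subset_adjoin ⟨i, rfl⟩)
    · refine sup_le ?_ ?_
      · rintro _ ⟨x, rfl⟩
        exact Algebra.subset_adjoin (Or.inl ⟨x, rfl⟩)
      · refine Algebra.adjoin_mono ?_
        rintro _ ⟨j, rfl⟩
        exact Or.inr ⟨j, hquot j s⟩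

end Pool.Agent.W591.WRR
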